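import Pool.Agent.P8H67.TU.Stm3

/-!
# Project TU: the logarithm of a map with positive spectrum is a polynomial in the map
-/

set_option autoImplicit false

namespace Pool.Agent.P8H80.TU

open Polynomial Pool.Agent.P8H67.TU

section
variable {W : Type} [NormedAddCommGroup W] [NormedSpace ℝ W]

lemma coe_aeval (A : W →L[ℝ] W) (p : ℝ[X]) :
    ((aeval A p : W →L[ℝ] W) : W →ₗ[ℝ] W) = aeval (A : W →ₗ[ℝ] W) p := by
  induction p using Polynomial.induction_on' with
  | add p q hp hq =>
    rw [map_add, map_add, ← hp, ← hq]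
    rfl
  | monomial n a =>
    rw [aeval_monomial, aeval_monomial]
    ext v
    simp [Algebra.algebraMap_eq_smul_one, ContinuousLinearMap.coe_pow]

lemma aeval_comm (A B : W →L[ℝ] W) (h : B * A = A * B) (p : ℝ[X]) :
    B * aeval A p = aeval A p * B := by
  have h1 : Algebra.adjoin ℝ {A} ≤ Subalgebra.centralizer ℝ {B} := by
    rw [Algebra.adjoin_le_iff]
    intro x hx
    rw [Set.mem_singleton_iff] at hx
    subst hx
    rw [SetLike.mem_coe, Subalgebra.mem_centralizer_iff]
    intro g hg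
    rw [Set.mem_singleton_iff] at hg
    subst hg
    exact h
  have h2 := h1 (aeval_mem_adjoin_singleton ℝ A (p := p))
  rw [Subalgebra.mem_centralizer_iff] at h2
  exact h2 B (Set.mem_singleton B)

lemma aeval_inv (A : W →L[ℝ] W) (S : Submodule ℝ W) (h : ∀ q ∈ S, A q ∈ S) (p : ℝ[X]) :
    ∀ q ∈ S, (aeval A p) q ∈ S := by
  have hpow : ∀ n : ℕ, ∀ q ∈ S, (A ^ n) q ∈ S := by
    intro n
    induction n with
    | zero => intro q hq; simpa using hq
    | succ n ih =>
      intro q hq
      rw [pow_succ, ContinuousLinearMap.mul_apply]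
      exact ih _ (h q hq)
  induction p using Polynomial.induction_on' with
  | add p q hp hq =>
    intro v hv
    rw [map_add, ContinuousLinearMap.add_apply]
    exact S.add_mem (hp v hv) (hq v hv)
  | monomial n a =>
    intro v hv
    rw [aeval_monomial, Algebra.algebraMap_eq_smul_one, smul_mul_assoc, one_mul,
      ContinuousLinearMap.smul_apply]
    exact S.smul_mem _ (hpow n v hv)

lemma gen_le (f : Module.End ℝ W) (p : ℝ[X]) (μ : ℝ) :
    f.maxGenEigenspace μ ≤ Module.End.maxGenEigenspace (aeval f p) (p.eval μ) := by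
  intro v hv
  rw [Module.End.mem_maxGenEigenspace] at hv ⊢
  obtain ⟨k, hk⟩ := hv
  obtain ⟨h, hh⟩ := X_sub_C_dvd_sub_C_eval (a := μ) (p := p)
  have h1 : (aeval f p) - (p.eval μ) • (1 : Module.End ℝ W) = aeval f h * (f - μ • 1) := by
    have h2 : aeval f (p - C (p.eval μ)) = aeval f ((X - C μ) * h) := by rw [hh]
    rw [mul_comm (X - C μ) h, map_mul, map_sub, map_sub, aeval_C, aeval_C, aeval_X,
      Algebra.algebraMap_eq_smul_one, Algebra.algebraMap_eq_smul_one] at h2
    exact h2
  have hc : Commute (aeval f h) (f - μ • 1) := by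
    have h3 : aeval f (X - C μ) = f - μ • (1 : Module.End ℝ W) := by
      rw [map_sub, aeval_C, aeval_X, Algebra.algebraMap_eq_smul_one]
    rw [← h3, Commute, SemiconjBy, ← map_mul, ← map_mul, mul_comm]
  refine ⟨k, ?_⟩
  rw [h1, hc.mul_pow, Module.End.mul_apply, hk, map_zero]

lemma exp_eigen [CompleteSpace W] (T : W →L[ℝ] W) (c : ℝ) (v : W) (h : T v = c • v) :
    (NormedSpace.exp T : W →L[ℝ] W) v = Real.exp c • v := by
  have hpow : ∀ n : ℕ, (T ^ n) v = c ^ n • v := by
    intro n
    induction n with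
    | zero => simp
    | succ n ih =>
      rw [pow_succ, ContinuousLinearMap.mul_apply, h, map_smul, ih, smul_smul, pow_succ, mul_comm]
  have h1 := (NormedSpace.exp_series_hasSum_exp' (𝕂 := ℝ) T).mapL
    (ContinuousLinearMap.apply ℝ W v)
  have h2 := (NormedSpace.exp_series_hasSum_exp' (𝕂 := ℝ) c).smul_const v
  have h3 : (fun n : ℕ => (ContinuousLinearMap.apply ℝ W v) (((n.factorial : ℝ)⁻¹) • T ^ n)) =
      fun n : ℕ => (((n.factorial : ℝ)⁻¹) • c ^ n) • v := by
    funext n
    rw [ContinuousLinearMap.apply_apply, ContinuousLinearMap.smul_apply, hpow, smul_assoc]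
  rw [h3] at h1
  have h4 := h1.unique h2
  rw [ContinuousLinearMap.apply_apply] at h4
  rw [h4, Real.exp_eq_exp_ℝ]

lemma exp_poly [FiniteDimensional ℝ W] (T : W →L[ℝ] W) :
    ∃ e : ℝ[X], (NormedSpace.exp T : W →L[ℝ] W) = aeval T e := by
  have hfd : FiniteDimensional ℝ (W →L[ℝ] W) := inferInstance
  have hcl : IsClosed ((Algebra.adjoin ℝ {T} : Subalgebra ℝ (W →L[ℝ] W)) : Set (W →L[ℝ] W)) :=
    Submodule.closed_of_finiteDimensional (Subalgebra.toSubmodule (Algebra.adjoin ℝ {T}))
  have h1 : (NormedSpace.exp T : W →L[ℝ] W) ∈ Algebra.adjoin ℝ {T} := by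
    rw [NormedSpace.exp_eq_tsum ℝ]
    exact tsum_mem hcl fun i => Subalgebra.smul_mem _
      (pow_mem (Algebra.self_mem_adjoin_singleton ℝ T) _) _
  rw [Algebra.adjoin_singleton_eq_range_aeval] at h1
  obtain ⟨e, he⟩ := h1
  exact ⟨e, he.symm⟩

lemma nil_of_top [FiniteDimensional ℝ W] (x : W →L[ℝ] W)
    (h : Module.End.maxGenEigenspace (x : W →ₗ[ℝ] W) 0 = ⊤) : IsNilpotent x := by
  rw [Module.End.maxGenEigenspace_eq_genEigenspace_finrank] at h
  refine ⟨Module.finrank ℝ W, ?_⟩
  ext v
  have h1 : v ∈ Module.End.genEigenspace (x : W →ₗ[ℝ] W) 0 (Module.finrank ℝ W : ℕ) := by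
    rw [h]
    exact Submodule.mem_top
  rw [Module.End.mem_genEigenspace_nat, zero_smul, sub_zero, LinearMap.mem_ker] at h1
  have h2 : ∀ n : ℕ, ((x ^ n : W →L[ℝ] W) v) = ((x : W →ₗ[ℝ] W) ^ n) v := by
    intro n
    rw [← ContinuousLinearMap.coe_pow]
    rfl
  rw [h2, h1]
  rfl

end

theorem logr : S_LOGR := by
  intro hL W _ _ _ A hA
  have hc : CompleteSpace W := FiniteDimensional.complete ℝ W
  letI : NormedAlgebra ℚ (W →L[ℝ] W) := NormedAlgebra.restrictScalars ℚ ℝ (W →L[ℝ] W)
  classical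
  set f : Module.End ℝ W := (A : W →ₗ[ℝ] W) with hf
  set s : Finset ℝ := (Module.End.finite_hasEigenvalue (f := f)).toFinset with hs
  set g : ℝ[X] := Lagrange.interpolate s id (fun μ => Real.log μ) with hg
  have hgev : ∀ μ, f.HasEigenvalue μ → g.eval μ = Real.log μ := by
    intro μ hμ
    have hμs : μ ∈ s := by
      rw [hs, Set.Finite.mem_toFinset]
      exact hμ
    exact Lagrange.eval_interpolate_at_node (fun μ => Real.log μ) (Set.injOn_id _) hμs
  obtain ⟨e', he'⟩ := exp_poly (-(aeval A g))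
  have hneg : -(aeval A g) = aeval A (-g) := (map_neg _ _).symm
  have he1 : (NormedSpace.exp (-(aeval A g)) : W →L[ℝ] W) = aeval A (e'.comp (-g)) := by
    rw [he', aeval_comp, hneg]
  set e1 : ℝ[X] := e'.comp (-g) with he1d
  set r : ℝ[X] := e1 * X - 1 with hr
  have hev : ∀ μ : ℝ, 0 < μ → f.HasEigenvalue μ → r.eval μ = 0 := by
    intro μ hμ0 hμ
    obtain ⟨v, hv⟩ := hμ.exists_hasEigenvector
    have hAv : f v = μ • v := hv.apply_eq_smul
    have h1 : (aeval A g) v = Real.log μ • v := by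
      have h2 : (aeval A g) v = (aeval f g) v := by
        rw [hf, ← coe_aeval]
        rfl
      rw [h2, Module.End.aeval_apply_of_hasEigenvector hv, hgev μ hμ]
    have h3 : (-(aeval A g)) v = (-Real.log μ) • v := by
      rw [ContinuousLinearMap.neg_apply, h1, neg_smul]
    have h4 := exp_eigen _ _ _ h3
    have h5 : (aeval A e1) v = (e1.eval μ) • v := by
      have h6 : (aeval A e1) v = (aeval f e1) v := by
        rw [hf, ← coe_aeval]
        rfl
      rw [h6, Module.End.aeval_apply_of_hasEigenvector hv]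
    rw [he1, h5] at h4
    have h7 : e1.eval μ = Real.exp (-Real.log μ) := by
      by_contra hne
      apply hv.2
      have h8 : (e1.eval μ - Real.exp (-Real.log μ)) • v = 0 := by
        rw [sub_smul, h4, sub_self]
      exact (smul_eq_zero.1 h8).resolve_left (sub_ne_zero.2 hne)
    rw [hr, eval_sub, eval_mul, eval_X, eval_one, h7, Real.exp_neg, Real.exp_log hμ0,
      inv_mul_cancel₀ hμ0.ne', sub_self]
  -- the unipotent part
  have hx : (aeval A r : W →L[ℝ] W) = NormedSpace.exp (-(aeval A g)) * A - 1 := by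
    rw [hr, map_sub, map_mul, aeval_X, map_one, he1]
  have hnil : IsNilpotent (aeval A r : W →L[ℝ] W) := by
    apply nil_of_top
    rw [coe_aeval, ← hf, eq_top_iff, ← hA]
    refine iSup_le fun μ => ?_
    by_cases hb : f.maxGenEigenspace μ.1 = ⊥
    · change f.maxGenEigenspace μ.1 ≤ _
      rw [hb]
      exact bot_le
    · have hE : f.HasEigenvalue μ.1 := by
        have h1 : f.HasUnifEigenvalue μ.1 ⊤ := hb
        exact h1.lt zero_lt_one
      have h2 := gen_le f r μ.1
      rw [hev μ.1 μ.2 hE] at h2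
      exact h2
  obtain ⟨z, hz, hexp⟩ := hL (W →L[ℝ] W) (aeval A r) hnil
  rw [Algebra.adjoin_singleton_eq_range_aeval] at hz
  obtain ⟨q, hq⟩ := hz
  have hzA : z = aeval A (q.comp r) := by
    rw [aeval_comp]
    exact hq.symm
  refine ⟨aeval A (g + r * q.comp r), ?_, ?_, fun B hB => aeval_comm A B hB _,
    fun S hS => aeval_inv A S hS _⟩
  · unfold RealSpec
    rw [coe_aeval, ← hf, eq_top_iff, ← hA]
    refine iSup_le fun μ => ?_
    exact (gen_le f (g + r * q.comp r) μ.1).trans
      (le_iSup (fun c : ℝ => Module.End.maxGenEigenspace (aeval f (g + r * q.comp r)) c) _)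
  · rw [map_add, map_mul, ← hzA]
    have hcom : Commute (aeval A g : W →L[ℝ] W) (aeval A r * z) := by
      rw [hzA, ← map_mul, Commute, SemiconjBy, ← map_mul, ← map_mul, mul_comm]
    rw [NormedSpace.exp_add_of_commute hcom, hexp, hx]
    have h1 : (1 : W →L[ℝ] W) + (NormedSpace.exp (-(aeval A g)) * A - 1) =
        NormedSpace.exp (-(aeval A g)) * A := by abel
    rw [h1, ← mul_assoc, ← NormedSpace.exp_add_of_commute (Commute.neg_right (Commute.refl _)),
      add_neg_cancel, NormedSpace.exp_zero, one_mul]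

end Pool.Agent.P8H80.TU
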